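import Mathlib

/-!
# Alternating cycles in Cayley graphs: gluing

An alternating cycle on a finite set `U` of elements of a group is given by two perfect matchings
`α`, `β` of `U`, with edges `x, x p`, `p` in `P` resp. in `Q`, such that no proper nonempty subset is
closed under both.
-/

set_option autoImplicit false

namespace Run7.h85.HC

open Finset

attribute [local instance] Classical.propDecidable

set_option linter.unusedSectionVars false

universe u

variable {G : Type u} [Group G]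

/-- two matchings of `U` with edges of type `P` and `Q` whose union is connected -/
structure AltOn (P Q : Set G) (U : Finset G) (α β : G → G) : Prop where
  am : ∀ x ∈ U, α x ∈ U
  ai : ∀ x ∈ U, α (α x) = x
  at_ : ∀ x ∈ U, x⁻¹ * α x ∈ P
  bm : ∀ x ∈ U, β x ∈ U
  bi : ∀ x ∈ U, β (β x) = x
  bt : ∀ x ∈ U, x⁻¹ * β x ∈ Q
  irr : ∀ W ⊆ U, W.Nonempty → (∀ x ∈ W, α x ∈ W) → (∀ x ∈ W, β x ∈ W) → W = U

theorem AltOn.swap {P Q : Set G} {U : Finset G} {α β : G → G} (h : AltOn P Q U α β) :
    AltOn Q P U β α :=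
  ⟨h.bm, h.bi, h.bt, h.am, h.ai, h.at_, fun W hW hn h1 h2 => h.irr W hW hn h2 h1⟩

theorem AltOn.ane {P Q : Set G} {U : Finset G} {α β : G → G} (h : AltOn P Q U α β)
    (hP : (1 : G) ∉ P) : ∀ x ∈ U, α x ≠ x := by
  intro x hx he
  have := h.at_ x hx
  rw [he, inv_mul_cancel] at this
  exact hP this

theorem even_of_inv (W : Finset G) (f : G → G) (hf : ∀ x ∈ W, f x ∈ W) (hff : ∀ x ∈ W, f (f x) = x)
    (hne : ∀ x ∈ W, f x ≠ x) : Even W.card := by
  have h : ∑ _x ∈ W, (1 : ZMod 2) = 0 := by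
    refine Finset.sum_involution (fun x _ => f x) ?_ ?_ ?_ ?_
    · intro x _; decide
    · intro x hx _; exact hne x hx
    · intro x hx; exact hf x hx
    · intro x hx; exact hff x hx
  rw [Finset.sum_const, nsmul_eq_mul, mul_one] at h
  have := (ZMod.natCast_eq_zero_iff W.card 2).1 h
  exact even_iff_two_dvd.2 this

/-- a subset closed under `β`, and under `α` outside of the edge `x, y`, contains both or none of
`x` and `y` -/
theorem both_or_none {W : Finset G} {f g : G → G} {x y : G} (_hxy : x ≠ y)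
    (g1 : ∀ z ∈ W, g z ∈ W) (g2 : ∀ z ∈ W, g (g z) = z) (g3 : ∀ z ∈ W, g z ≠ z)
    (f1 : ∀ z ∈ W, z ≠ x → z ≠ y → f z ∈ W ∧ f z ≠ x ∧ f z ≠ y)
    (f2 : ∀ z ∈ W, z ≠ x → z ≠ y → f (f z) = z) (f3 : ∀ z ∈ W, z ≠ x → z ≠ y → f z ≠ z) :
    x ∈ W ↔ y ∈ W := by
  have e1 : Even W.card := even_of_inv W g g1 g2 g3
  have e2 : Even ((W.erase x).erase y).card := by
    refine even_of_inv _ f ?_ ?_ ?_
    · intro z hz
      simp only [mem_erase] at hz ⊢
      have := f1 z hz.2.2 hz.2.1 hz.1
      exact ⟨this.2.2, this.2.1, this.1⟩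
    · intro z hz
      simp only [mem_erase] at hz
      exact f2 z hz.2.2 hz.2.1 hz.1
    · intro z hz
      simp only [mem_erase] at hz
      exact f3 z hz.2.2 hz.2.1 hz.1
  by_cases hx : x ∈ W
  · by_cases hy : y ∈ W
    · simp [hx, hy]
    · exfalso
      have h1 : (W.erase x).erase y = W.erase x := by
        apply erase_eq_of_notMem
        intro h
        exact hy (mem_erase.1 h).2
      rw [h1, card_erase_of_mem hx] at e2
      have : 0 < W.card := card_pos.2 ⟨x, hx⟩
      obtain ⟨a, ha⟩ := e1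
      obtain ⟨b, hb⟩ := e2
      omega
  · by_cases hy : y ∈ W
    · exfalso
      rw [erase_eq_of_notMem hx, card_erase_of_mem hy] at e2
      have : 0 < W.card := card_pos.2 ⟨y, hy⟩
      obtain ⟨a, ha⟩ := e1
      obtain ⟨b, hb⟩ := e2
      omega
    · simp [hx, hy]

/-- **gluing** two alternating cycles along a 4-cycle `x, y, y', x'` -/
theorem glue {P Q : Set G} (hP : (1 : G) ∉ P) (hQ : (1 : G) ∉ Q) {U D : Finset G} {α β α' β' : G → G}
    (hU : AltOn P Q U α β) (hD : AltOn P Q D α' β') (hdis : Disjoint U D) {x y x' y' : G}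
    (hx : x ∈ U) (hy : α x = y) (hx' : x' ∈ D) (hy' : α' x' = y')
    (t1 : x⁻¹ * x' ∈ P) (t2 : x'⁻¹ * x ∈ P) (t3 : y⁻¹ * y' ∈ P) (t4 : y'⁻¹ * y ∈ P) :
    ∃ f g : G → G, AltOn P Q (U ∪ D) f g ∧ f x = x' ∧ f x' = x ∧ f y = y' ∧ f y' = y ∧
      (∀ z ∈ U, z ≠ x → z ≠ y → f z = α z) ∧ (∀ z ∈ D, z ≠ x' → z ≠ y' → f z = α' z) := by
  have hyU : y ∈ U := hy ▸ hU.am x hx
  have hyD : y' ∈ D := hy' ▸ hD.am x' hx'
  have hxy : x ≠ y := fun h => hU.ane hP x hx (hy.trans h.symm)
  have hxy' : x' ≠ y' := fun h => hD.ane hP x' hx' (hy'.trans h.symm)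
  have hyx : α y = x := by rw [← hy]; exact hU.ai x hx
  have hyx' : α' y' = x' := by rw [← hy']; exact hD.ai x' hx'
  have dj : ∀ z w, z ∈ U → w ∈ D → z ≠ w := by
    intro z w hz hw h
    subst h
    exact (Finset.disjoint_left.1 hdis hz) hw
  let f : G → G := fun z => if z = x then x' else if z = x' then x else if z = y then y' else
    if z = y' then y else if z ∈ U then α z else α' z
  let g : G → G := fun z => if z ∈ U then β z else β' z
  have fx : f x = x' := by simp [f]
  have fx' : f x' = x := by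
    simp only [f]
    rw [if_neg (dj x x' hx hx').symm]; simp
  have fy : f y = y' := by
    simp only [f]
    rw [if_neg hxy.symm, if_neg (dj y x' hyU hx')]; simp
  have fy' : f y' = y := by
    simp only [f]
    rw [if_neg (dj x y' hx hyD).symm, if_neg hxy'.symm, if_neg (dj y y' hyU hyD).symm]; simp
  have fU : ∀ z ∈ U, z ≠ x → z ≠ y → f z = α z := by
    intro z hz h1 h2
    simp only [f]
    rw [if_neg h1, if_neg (dj z x' hz hx'), if_neg h2, if_neg (dj z y' hz hyD), if_pos hz]
  have fD : ∀ z ∈ D, z ≠ x' → z ≠ y' → f z = α' z := by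
    intro z hz h1 h2
    have hzU : z ∉ U := fun h => dj z z h hz rfl
    simp only [f]
    rw [if_neg (dj x z hx hz).symm, if_neg h1, if_neg (dj y z hyU hz).symm, if_neg h2, if_neg hzU]
  have gU : ∀ z ∈ U, g z = β z := by
    intro z hz
    simp only [g]
    rw [if_pos hz]
  have gD : ∀ z ∈ D, g z = β' z := by
    intro z hz
    have hzU : z ∉ U := fun h => dj z z h hz rfl
    simp only [g]
    rw [if_neg hzU]
  have aU : ∀ z ∈ U, z ≠ x → z ≠ y → α z ∈ U ∧ α z ≠ x ∧ α z ≠ y := by
    intro z hz h1 h2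
    refine ⟨hU.am z hz, fun h => h2 ?_, fun h => h1 ?_⟩
    · rw [← hU.ai z hz, h, hy]
    · rw [← hU.ai z hz, h, hyx]
  have aD : ∀ z ∈ D, z ≠ x' → z ≠ y' → α' z ∈ D ∧ α' z ≠ x' ∧ α' z ≠ y' := by
    intro z hz h1 h2
    refine ⟨hD.am z hz, fun h => h2 ?_, fun h => h1 ?_⟩
    · rw [← hD.ai z hz, h, hy']
    · rw [← hD.ai z hz, h, hyx']
  refine ⟨f, g, ⟨?_, ?_, ?_, ?_, ?_, ?_, ?_⟩, fx, fx', fy, fy', fU, fD⟩
  · intro z hz
    rcases mem_union.1 hz with hz | hz
    · by_cases h1 : z = x
      · subst h1; rw [fx]; exact mem_union_right _ hx'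
      by_cases h2 : z = y
      · subst h2; rw [fy]; exact mem_union_right _ hyD
      rw [fU z hz h1 h2]; exact mem_union_left _ (hU.am z hz)
    · by_cases h1 : z = x'
      · subst h1; rw [fx']; exact mem_union_left _ hx
      by_cases h2 : z = y'
      · subst h2; rw [fy']; exact mem_union_left _ hyU
      rw [fD z hz h1 h2]; exact mem_union_right _ (hD.am z hz)
  · intro z hz
    rcases mem_union.1 hz with hz | hz
    · by_cases h1 : z = x
      · subst h1; rw [fx, fx']
      by_cases h2 : z = y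
      · subst h2; rw [fy, fy']
      obtain ⟨h3, h4, h5⟩ := aU z hz h1 h2
      rw [fU z hz h1 h2, fU _ h3 h4 h5, hU.ai z hz]
    · by_cases h1 : z = x'
      · subst h1; rw [fx', fx]
      by_cases h2 : z = y'
      · subst h2; rw [fy', fy]
      obtain ⟨h3, h4, h5⟩ := aD z hz h1 h2
      rw [fD z hz h1 h2, fD _ h3 h4 h5, hD.ai z hz]
  · intro z hz
    rcases mem_union.1 hz with hz | hz
    · by_cases h1 : z = x
      · subst h1; rw [fx]; exact t1
      by_cases h2 : z = y
      · subst h2; rw [fy]; exact t3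
      rw [fU z hz h1 h2]; exact hU.at_ z hz
    · by_cases h1 : z = x'
      · subst h1; rw [fx']; exact t2
      by_cases h2 : z = y'
      · subst h2; rw [fy']; exact t4
      rw [fD z hz h1 h2]; exact hD.at_ z hz
  · intro z hz
    rcases mem_union.1 hz with hz | hz
    · rw [gU z hz]; exact mem_union_left _ (hU.bm z hz)
    · rw [gD z hz]; exact mem_union_right _ (hD.bm z hz)
  · intro z hz
    rcases mem_union.1 hz with hz | hz
    · rw [gU z hz, gU _ (hU.bm z hz), hU.bi z hz]
    · rw [gD z hz, gD _ (hD.bm z hz), hD.bi z hz]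
  · intro z hz
    rcases mem_union.1 hz with hz | hz
    · rw [gU z hz]; exact hU.bt z hz
    · rw [gD z hz]; exact hD.bt z hz
  · intro W hW hn w1 w2
    -- the two parts of `W`
    have k1 : x ∈ W ∩ U ↔ y ∈ W ∩ U := by
      refine both_or_none (f := α) (g := β) hxy ?_ ?_ ?_ ?_ ?_ ?_
      · intro z hz
        rw [mem_inter] at hz ⊢
        have := w2 z hz.1
        rw [gU z hz.2] at this
        exact ⟨this, hU.bm z hz.2⟩
      · intro z hz; exact hU.bi z (mem_inter.1 hz).2
      · intro z hz; exact hU.swap.ane hQ z (mem_inter.1 hz).2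
      · intro z hz h1 h2
        rw [mem_inter] at hz
        have := w1 z hz.1
        rw [fU z hz.2 h1 h2] at this
        obtain ⟨h3, h4, h5⟩ := aU z hz.2 h1 h2
        exact ⟨mem_inter.2 ⟨this, h3⟩, h4, h5⟩
      · intro z hz _ _; exact hU.ai z (mem_inter.1 hz).2
      · intro z hz _ _; exact hU.ane hP z (mem_inter.1 hz).2
    have k2 : x' ∈ W ∩ D ↔ y' ∈ W ∩ D := by
      refine both_or_none (f := α') (g := β') hxy' ?_ ?_ ?_ ?_ ?_ ?_
      · intro z hz
        rw [mem_inter] at hz ⊢
        have := w2 z hz.1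
        rw [gD z hz.2] at this
        exact ⟨this, hD.bm z hz.2⟩
      · intro z hz; exact hD.bi z (mem_inter.1 hz).2
      · intro z hz; exact hD.swap.ane hQ z (mem_inter.1 hz).2
      · intro z hz h1 h2
        rw [mem_inter] at hz
        have := w1 z hz.1
        rw [fD z hz.2 h1 h2] at this
        obtain ⟨h3, h4, h5⟩ := aD z hz.2 h1 h2
        exact ⟨mem_inter.2 ⟨this, h3⟩, h4, h5⟩
      · intro z hz _ _; exact hD.ai z (mem_inter.1 hz).2
      · intro z hz _ _; exact hD.ane hP z (mem_inter.1 hz).2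
    have c1 : (W ∩ U).Nonempty → W ∩ U = U := by
      intro hne
      refine hU.irr _ inter_subset_right hne ?_ ?_
      · intro z hz
        by_cases h1 : z = x
        · subst h1; rw [hy]; exact k1.1 hz
        by_cases h2 : z = y
        · subst h2; rw [hyx]; exact k1.2 hz
        rw [mem_inter] at hz ⊢
        have := w1 z hz.1
        rw [fU z hz.2 h1 h2] at this
        exact ⟨this, hU.am z hz.2⟩
      · intro z hz
        rw [mem_inter] at hz ⊢
        have := w2 z hz.1
        rw [gU z hz.2] at this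
        exact ⟨this, hU.bm z hz.2⟩
    have c2 : (W ∩ D).Nonempty → W ∩ D = D := by
      intro hne
      refine hD.irr _ inter_subset_right hne ?_ ?_
      · intro z hz
        by_cases h1 : z = x'
        · subst h1; rw [hy']; exact k2.1 hz
        by_cases h2 : z = y'
        · subst h2; rw [hyx']; exact k2.2 hz
        rw [mem_inter] at hz ⊢
        have := w1 z hz.1
        rw [fD z hz.2 h1 h2] at this
        exact ⟨this, hD.am z hz.2⟩
      · intro z hz
        rw [mem_inter] at hz ⊢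
        have := w2 z hz.1
        rw [gD z hz.2] at this
        exact ⟨this, hD.bm z hz.2⟩
    have d1 : (W ∩ U).Nonempty → (W ∩ D).Nonempty := by
      intro hne
      have h1 := c1 hne
      have h2 : x ∈ W := (mem_inter.1 (h1.symm ▸ hx : x ∈ W ∩ U)).1
      have h3 := w1 x h2
      rw [fx] at h3
      exact ⟨x', mem_inter.2 ⟨h3, hx'⟩⟩
    have d2 : (W ∩ D).Nonempty → (W ∩ U).Nonempty := by
      intro hne
      have h1 := c2 hne
      have h2 : x' ∈ W := (mem_inter.1 (h1.symm ▸ hx' : x' ∈ W ∩ D)).1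
      have h3 := w1 x' h2
      rw [fx'] at h3
      exact ⟨x, mem_inter.2 ⟨h3, hx⟩⟩
    have hne1 : (W ∩ U).Nonempty := by
      obtain ⟨z, hz⟩ := hn
      rcases mem_union.1 (hW hz) with h | h
      · exact ⟨z, mem_inter.2 ⟨hz, h⟩⟩
      · exact d2 ⟨z, mem_inter.2 ⟨hz, h⟩⟩
    apply Subset.antisymm hW
    apply union_subset
    · intro z hz; exact (mem_inter.1 ((c1 hne1).symm ▸ hz : z ∈ W ∩ U)).1
    · intro z hz; exact (mem_inter.1 ((c2 (d1 hne1)).symm ▸ hz : z ∈ W ∩ D)).1

/-- translates of alternating cycles -/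
theorem AltOn.translate {P Q : Set G} {U : Finset G} {α β : G → G} (h : AltOn P Q U α β) (g : G) :
    AltOn P Q (U.image (g * ·)) (fun z => g * α (g⁻¹ * z)) (fun z => g * β (g⁻¹ * z)) := by
  refine ⟨?_, ?_, ?_, ?_, ?_, ?_, ?_⟩
  · intro z hz
    obtain ⟨w, hw, rfl⟩ := mem_image.1 hz
    simp only [inv_mul_cancel_left]
    exact mem_image_of_mem _ (h.am w hw)
  · intro z hz
    obtain ⟨w, hw, rfl⟩ := mem_image.1 hz
    simp only [inv_mul_cancel_left]
    rw [h.ai w hw]
  · intro z hz
    obtain ⟨w, hw, rfl⟩ := mem_image.1 hz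
    simp only [inv_mul_cancel_left, mul_inv_rev]
    rw [mul_assoc, inv_mul_cancel_left]
    exact h.at_ w hw
  · intro z hz
    obtain ⟨w, hw, rfl⟩ := mem_image.1 hz
    simp only [inv_mul_cancel_left]
    exact mem_image_of_mem _ (h.bm w hw)
  · intro z hz
    obtain ⟨w, hw, rfl⟩ := mem_image.1 hz
    simp only [inv_mul_cancel_left]
    rw [h.bi w hw]
  · intro z hz
    obtain ⟨w, hw, rfl⟩ := mem_image.1 hz
    simp only [inv_mul_cancel_left, mul_inv_rev]
    rw [mul_assoc, inv_mul_cancel_left]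
    exact h.bt w hw
  · intro W hW hn w1 w2
    have key : W.image (g⁻¹ * ·) = U := by
      refine h.irr _ ?_ ?_ ?_ ?_
      · intro z hz
        obtain ⟨w, hw, rfl⟩ := mem_image.1 hz
        obtain ⟨v, hv, rfl⟩ := mem_image.1 (hW hw)
        simpa using hv
      · exact hn.image _
      · intro z hz
        obtain ⟨w, hw, rfl⟩ := mem_image.1 hz
        have := w1 w hw
        exact mem_image.2 ⟨_, this, by simp⟩
      · intro z hz
        obtain ⟨w, hw, rfl⟩ := mem_image.1 hz
        have := w2 w hw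
        exact mem_image.2 ⟨_, this, by simp⟩
    rw [← key, image_image]
    have : ((g * ·) ∘ (g⁻¹ * ·) : G → G) = id := by
      funext z; simp
    rw [this, image_id]

end Run7.h85.HC
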