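import Pool.Agent.Run7.h85.HC.Step

/-!
# Two families of commuting generators: the alternating Hamiltonian cycle
-/

set_option autoImplicit false

namespace Run7.h85.HC

open Finset

attribute [local instance] Classical.propDecidable

set_option linter.unusedSectionVars false

universe u

variable {G : Type u} [Group G] [Fintype G]

/-- the elements `≠ 1` of `A` and their inverses -/
def sym (A : Set G) : Set G := {x | x ≠ 1 ∧ (x ∈ A ∨ x⁻¹ ∈ A)}

theorem one_sym (A : Set G) : (1 : G) ∉ sym A := fun h => h.1 rfl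

theorem inv_sym (A : Set G) : ∀ p ∈ sym A, p⁻¹ ∈ sym A := by
  intro p hp
  refine ⟨fun h => hp.1 (inv_eq_one.1 h), ?_⟩
  rcases hp.2 with h | h
  · right; simpa using h
  · left; exact h

theorem comm_sym {A : Set G} (hA : ∀ x ∈ A, ∀ y ∈ A, x * y = y * x) {c : G} (hc : c ∈ A) :
    ∀ p ∈ sym A, p * c = c * p := by
  intro p hp
  rcases hp.2 with h | h
  · exact hA p h c hc
  · have h1 : Commute p⁻¹ c := hA _ h c hc
    have h2 : Commute p c := by
      have := h1.inv_left
      simpa using this
    exact h2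

theorem sup_ne {H : Subgroup G} {c : G} (hc : c ∉ H) : H < H ⊔ Subgroup.zpowers c := by
  refine lt_of_le_of_ne le_sup_left ?_
  intro h
  apply hc
  rw [h]
  exact (le_sup_right : Subgroup.zpowers c ≤ H ⊔ Subgroup.zpowers c) (Subgroup.mem_zpowers c)

/-- the dihedral cycle -/
theorem base {P Q : Set G} {a b : G} (ha : a ∈ P) (hb : b ∈ Q) (ha2 : a * a = 1) (hb2 : b * b = 1) :
    AltOn P Q (fin (Subgroup.closure ({a, b} : Set G))) (fun x => x * a) (fun x => x * b) := by
  have haH : a ∈ Subgroup.closure ({a, b} : Set G) := Subgroup.subset_closure (by simp)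
  have hbH : b ∈ Subgroup.closure ({a, b} : Set G) := Subgroup.subset_closure (by simp)
  refine ⟨?_, ?_, ?_, ?_, ?_, ?_, ?_⟩
  · intro x hx
    exact mem_fin.2 (mul_mem (mem_fin.1 hx) haH)
  · intro x _
    simp only [mul_assoc, ha2, mul_one]
  · intro x _
    simpa using ha
  · intro x hx
    exact mem_fin.2 (mul_mem (mem_fin.1 hx) hbH)
  · intro x _
    simp only [mul_assoc, hb2, mul_one]
  · intro x _
    simpa using hb
  · intro W hW hn h1 h2
    have key : ∀ z ∈ Subgroup.closure ({a, b} : Set G), ∀ y ∈ W, y * z ∈ W := by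
      intro z hz
      induction hz using Subgroup.closure_induction with
      | mem x hx =>
        intro y hy
        rcases hx with rfl | hx
        · exact h1 y hy
        · rw [Set.mem_singleton_iff] at hx
          subst hx
          exact h2 y hy
      | one => intro y hy; simpa using hy
      | mul p q _ _ ihp ihq =>
        intro y hy
        rw [← mul_assoc]
        exact ihq _ (ihp y hy)
      | inv p _ ihp =>
        intro y hy
        have h1 : W.image (· * p) = W := by
          apply eq_of_subset_of_card_le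
          · intro z hz
            obtain ⟨w, hw, rfl⟩ := mem_image.1 hz
            exact ihp w hw
          · rw [card_image_of_injective _ (mul_left_injective p)]
        rw [← h1] at hy
        obtain ⟨w, hw, rfl⟩ := mem_image.1 hy
        simpa using hw
    apply Subset.antisymm hW
    intro z hz
    obtain ⟨w, hw⟩ := hn
    have := key (w⁻¹ * z) (mul_mem (inv_mem (mem_fin.1 (hW hw))) (mem_fin.1 hz)) w hw
    simpa using this

/-- the alternating Hamiltonian cycle -/
theorem exists_alt {A B : Set G} (hA : ∀ x ∈ A, ∀ y ∈ A, x * y = y * x)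
    (hB : ∀ x ∈ B, ∀ y ∈ B, x * y = y * x) {a b : G} (ha : a ∈ A) (ha1 : a ≠ 1) (ha2 : a * a = 1)
    (hb : b ∈ B) (hb1 : b ≠ 1) (hb2 : b * b = 1) (hgen : Subgroup.closure (A ∪ B) = ⊤)
    (h3 : ∀ c ∈ A ∪ B, c * c ≠ 1 → ∃ x y : G,
      x ∈ Subgroup.closure {z | z ∈ A ∪ B ∧ z * z = 1} ∧
      y ∈ Subgroup.closure {z | z ∈ A ∪ B ∧ z * z = 1} ∧ x ≠ 1 ∧ y ≠ 1 ∧ x ≠ y ∧
      x * c = c * x ∧ y * c = c * y) :
    ∃ f g : G → G, AltOn (sym A) (sym B) univ f g := by
  let T : Set (Subgroup G) := {H | ∃ f g : G → G, AltOn (sym A) (sym B) (fin H) f g}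
  have hT : T.Nonempty := ⟨_, _, _, base (P := sym A) (Q := sym B) ⟨ha1, Or.inl ha⟩ ⟨hb1, Or.inl hb⟩ ha2 hb2⟩
  have hfin : T.Finite := Set.toFinite T
  obtain ⟨H, hH, hmax⟩ := hfin.exists_maximal hT
  obtain ⟨f, g, hfg⟩ := hH
  -- no further element can be added
  have key : ∀ c ∈ A ∪ B, (c * c = 1 ∨ ∃ x y : G, x ∈ H ∧ y ∈ H ∧ x ≠ 1 ∧ y ≠ 1 ∧ x ≠ y ∧
      x * c = c * x ∧ y * c = c * y) → c ∈ H := by
    intro c hc h
    by_contra hcH
    have hc1 : c ≠ 1 := by
      rintro rfl
      exact hcH H.one_mem
    have hlt := sup_ne hcH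
    rcases hc with hc | hc
    · obtain ⟨f', g', h'⟩ := step (one_sym A) (one_sym B) (inv_sym A) ⟨hc1, Or.inl hc⟩ hcH
        (comm_sym hA hc) hfg h
      exact absurd (hmax (show H ⊔ Subgroup.zpowers c ∈ T from ⟨f', g', h'⟩) hlt.le) (not_le_of_gt hlt)
    · obtain ⟨f', g', h'⟩ := step (one_sym B) (one_sym A) (inv_sym B) ⟨hc1, Or.inl hc⟩ hcH
        (comm_sym hB hc) hfg.swap h
      exact absurd (hmax (show H ⊔ Subgroup.zpowers c ∈ T from ⟨g', f', h'.swap⟩) hlt.le)
        (not_le_of_gt hlt)
  have hK : Subgroup.closure {z | z ∈ A ∪ B ∧ z * z = 1} ≤ H := by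
    rw [Subgroup.closure_le]
    intro z hz
    exact key z hz.1 (Or.inl hz.2)
  have hall : A ∪ B ⊆ (H : Set G) := by
    intro c hc
    by_cases h2 : c * c = 1
    · exact key c hc (Or.inl h2)
    · obtain ⟨x, y, hx, hy, h⟩ := h3 c hc h2
      exact key c hc (Or.inr ⟨x, y, hK hx, hK hy, h⟩)
  have htop : H = ⊤ := by
    rw [eq_top_iff, ← hgen, Subgroup.closure_le]
    exact hall
  have huniv : fin H = univ := by
    ext z
    simp [mem_fin, htop]
  rw [huniv] at hfg
  exact ⟨f, g, hfg⟩

/-- the cycle as a sequence -/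
def walk (f g : G → G) : ℕ → G
  | 0 => 1
  | n + 1 => if Even n then f (walk f g n) else g (walk f g n)

theorem walk_even {f g : G → G} {n : ℕ} (h : Even n) : walk f g (n + 1) = f (walk f g n) := by
  rw [walk, if_pos h]

theorem walk_odd {f g : G → G} {n : ℕ} (h : ¬ Even n) : walk f g (n + 1) = g (walk f g n) := by
  rw [walk, if_neg h]

section
variable {P Q : Set G} {f g : G → G}

theorem walk_ne (hP : (1 : G) ∉ P) (hQ : (1 : G) ∉ Q) (h : AltOn P Q univ f g) :
    ∀ k i : ℕ, walk f g i ≠ walk f g (i + (2 * k + 1)) := by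
  have hf : ∀ x, f (f x) = x := fun x => h.ai x (mem_univ x)
  have hg : ∀ x, g (g x) = x := fun x => h.bi x (mem_univ x)
  intro k
  induction k with
  | zero =>
    intro i he
    by_cases hi : Even i
    · rw [Nat.mul_zero, Nat.zero_add, walk_even hi] at he
      exact h.ane hP _ (mem_univ _) he.symm
    · rw [Nat.mul_zero, Nat.zero_add, walk_odd hi] at he
      exact h.swap.ane hQ _ (mem_univ _) he.symm
  | succ k ih =>
    intro i he
    have e : i + (2 * (k + 1) + 1) = (i + 1 + (2 * k + 1)) + 1 := by ring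
    rw [e] at he
    apply ih (i + 1)
    by_cases hi : Even i
    · have hj : Even (i + 1 + (2 * k + 1)) := by
        rcases hi with ⟨m, hm⟩
        exact ⟨m + k + 1, by omega⟩
      rw [walk_even hj] at he
      rw [walk_even hi, he, hf]
    · have hj : ¬ Even (i + 1 + (2 * k + 1)) := by
        rw [Nat.not_even_iff_odd] at hi ⊢
        rcases hi with ⟨m, hm⟩
        exact ⟨m + k + 1, by omega⟩
      rw [walk_odd hj] at he
      rw [walk_odd hi, he, hg]

theorem walk_back (h : AltOn P Q univ f g) :
    ∀ i k : ℕ, walk f g i = walk f g (i + 2 * k) → walk f g (2 * k) = 1 := by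
  have hf : Function.Injective f :=
    Function.LeftInverse.injective (g := f) (fun x => h.ai x (mem_univ x))
  have hg : Function.Injective g :=
    Function.LeftInverse.injective (g := g) (fun x => h.bi x (mem_univ x))
  intro i
  induction i with
  | zero =>
    intro k he
    rw [Nat.zero_add] at he
    exact he.symm
  | succ i ih =>
    intro k he
    apply ih k
    have e : i + 1 + 2 * k = (i + 2 * k) + 1 := by ring
    rw [e] at he
    by_cases hi : Even i
    · have hj : Even (i + 2 * k) := hi.add (even_two_mul k)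
      rw [walk_even hi, walk_even hj] at he
      exact hf he
    · have hj : ¬ Even (i + 2 * k) := by
        rw [Nat.not_even_iff_odd] at hi ⊢
        exact hi.add_even (even_two_mul k)
      rw [walk_odd hi, walk_odd hj] at he
      exact hg he

/-- the length of the cycle -/
theorem walk_period (hP : (1 : G) ∉ P) (hQ : (1 : G) ∉ Q) (h : AltOn P Q univ f g) :
    walk f g (Fintype.card G) = 1 ∧ Even (Fintype.card G) ∧
      ∀ i < Fintype.card G, ∀ j < Fintype.card G, walk f g i = walk f g j → i = j := by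
  have hf : ∀ x, f (f x) = x := fun x => h.ai x (mem_univ x)
  have hg : ∀ x, g (g x) = x := fun x => h.bi x (mem_univ x)
  -- equal terms give a return
  have key : ∀ i j : ℕ, i < j → walk f g i = walk f g j → walk f g (j - i) = 1 := by
    intro i j hij he
    rcases Nat.even_or_odd' (j - i) with ⟨k, hk | hk⟩
    · have : j = i + 2 * k := by omega
      rw [this] at he
      rw [hk]
      exact walk_back h i k he
    · have : j = i + (2 * k + 1) := by omega
      rw [this] at he
      exact absurd he (walk_ne hP hQ h k i)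
  have hex : ∃ m : ℕ, 0 < m ∧ walk f g m = 1 := by
    obtain ⟨i, j, hij, he⟩ := Finite.exists_ne_map_eq_of_infinite (walk f g)
    rcases lt_or_gt_of_ne hij with hlt | hlt
    · exact ⟨j - i, by omega, key i j hlt he⟩
    · exact ⟨i - j, by omega, key j i hlt he.symm⟩
  classical
  set m := Nat.find hex with hm
  obtain ⟨hm0, hm1⟩ := Nat.find_spec hex
  have hmin : ∀ k : ℕ, 0 < k → k < m → walk f g k ≠ 1 := by
    intro k hk0 hk he
    exact Nat.find_min hex hk ⟨hk0, he⟩
  have hinj : ∀ i < m, ∀ j < m, walk f g i = walk f g j → i = j := by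
    intro i hi j hj he
    rcases lt_trichotomy i j with hlt | heq | hlt
    · exact absurd (key i j hlt he) (hmin (j - i) (by omega) (by omega))
    · exact heq
    · exact absurd (key j i hlt he.symm) (hmin (i - j) (by omega) (by omega))
  have hev : Even m := by
    by_contra hcon
    rw [Nat.not_even_iff_odd] at hcon
    obtain ⟨k, hk⟩ := hcon
    apply walk_ne hP hQ h k 0
    rw [Nat.zero_add, ← hk]
    exact hm1.symm
  have huniv : (range m).image (walk f g) = univ := by
    refine h.irr _ (subset_univ _) ⟨walk f g 0, mem_image_of_mem _ (mem_range.2 hm0)⟩ ?_ ?_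
    · intro x hx
      obtain ⟨i, hi, rfl⟩ := mem_image.1 hx
      rw [mem_range] at hi
      by_cases hie : Even i
      · rw [← walk_even (f := f) (g := g) hie]
        refine mem_image_of_mem _ (mem_range.2 ?_)
        rcases Nat.lt_or_ge (i + 1) m with h1 | h1
        · exact h1
        · exfalso
          have : i + 1 = m := by omega
          rw [← this] at hev
          exact (Nat.even_add_one.1 hev) hie
      · obtain ⟨i', rfl⟩ : ∃ i', i = i' + 1 := by
          cases i with
          | zero => exact absurd Even.zero hie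
          | succ i' => exact ⟨i', rfl⟩
        have hi' : Even i' := by
          by_contra hcon
          exact hie (Nat.even_add_one.2 hcon)
        rw [walk_even hi', hf]
        exact mem_image_of_mem _ (mem_range.2 (by omega))
    · intro x hx
      obtain ⟨i, hi, rfl⟩ := mem_image.1 hx
      rw [mem_range] at hi
      by_cases hie : Even i
      · -- go back
        have back : ∀ i', ¬ Even i' → i' + 1 ≤ m → walk f g (i' + 1) = walk f g i →
            g (walk f g i) ∈ (range m).image (walk f g) := by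
          intro i' h1 h2 h3
          rw [← h3, walk_odd h1, hg]
          exact mem_image_of_mem _ (mem_range.2 (by omega))
        cases i with
        | zero =>
          obtain ⟨m', hm'⟩ : ∃ m', m = m' + 1 := ⟨m - 1, by omega⟩
          refine back m' ?_ (by omega) ?_
          · rw [hm'] at hev
            exact Nat.even_add_one.1 hev
          · rw [← hm', hm1]; rfl
        | succ i' =>
          exact back i' (Nat.even_add_one.1 hie) (by omega) rfl
      · rw [← walk_odd (f := f) (g := g) hie]
        rcases Nat.lt_or_ge (i + 1) m with h1 | h1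
        · exact mem_image_of_mem _ (mem_range.2 h1)
        · have : i + 1 = m := by omega
          rw [this, hm1]
          exact mem_image.2 ⟨0, mem_range.2 hm0, rfl⟩
  have hcard : Fintype.card G = m := by
    rw [← card_univ, ← huniv, card_image_of_injOn, card_range]
    intro i hi j hj he
    rw [coe_range, Set.mem_Iio] at hi hj
    exact hinj i hi j hj he
  rw [hcard]
  exact ⟨hm1, hev, hinj⟩

end

theorem take_prod (s : ℕ → G) (h0 : s 0 = 1) (n : ℕ) :
    ∀ k ≤ n, ((List.ofFn (fun i : Fin n => (s i.val)⁻¹ * s (i.val + 1))).take k).prod = s k := by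
  intro k
  induction k with
  | zero => intro _; simp [h0]
  | succ k ih =>
    intro hk
    rw [List.prod_take_succ _ k (by simpa using hk), ih (by omega)]
    simp

/-- the closed listing sequence -/
theorem main {A B : Set G} (hA : ∀ x ∈ A, ∀ y ∈ A, x * y = y * x)
    (hB : ∀ x ∈ B, ∀ y ∈ B, x * y = y * x) {a b : G} (ha : a ∈ A) (ha1 : a ≠ 1) (ha2 : a * a = 1)
    (hb : b ∈ B) (hb1 : b ≠ 1) (hb2 : b * b = 1) (hgen : Subgroup.closure (A ∪ B) = ⊤)
    (h3 : ∀ c ∈ A ∪ B, c * c ≠ 1 → ∃ x y : G,
      x ∈ Subgroup.closure {z | z ∈ A ∪ B ∧ z * z = 1} ∧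
      y ∈ Subgroup.closure {z | z ∈ A ∪ B ∧ z * z = 1} ∧ x ≠ 1 ∧ y ≠ 1 ∧ x ≠ y ∧
      x * c = c * x ∧ y * c = c * y) :
    ∃ s : Fin (Nat.card G) → G,
      (∀ i, Even i.val → s i ∈ A ∨ (s i)⁻¹ ∈ A) ∧ (∀ i, ¬ Even i.val → s i ∈ B ∨ (s i)⁻¹ ∈ B) ∧
      Function.Injective (fun k : Fin (Nat.card G) => ((List.ofFn s).take (k.val + 1)).prod) ∧
      (List.ofFn s).prod = 1 := by
  obtain ⟨f, g, hfg⟩ := exists_alt hA hB ha ha1 ha2 hb hb1 hb2 hgen h3
  obtain ⟨h1, _, h2⟩ := walk_period (one_sym A) (one_sym B) hfg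
  rw [← Nat.card_eq_fintype_card] at h1 h2
  have htake := take_prod (walk f g) rfl (Nat.card G)
  refine ⟨fun i => (walk f g i.val)⁻¹ * walk f g (i.val + 1), ?_, ?_, ?_, ?_⟩
  · intro i hi
    show (walk f g i.val)⁻¹ * walk f g (i.val + 1) ∈ A ∨
      ((walk f g i.val)⁻¹ * walk f g (i.val + 1))⁻¹ ∈ A
    rw [walk_even hi]
    exact (hfg.at_ _ (mem_univ _)).2
  · intro i hi
    show (walk f g i.val)⁻¹ * walk f g (i.val + 1) ∈ B ∨
      ((walk f g i.val)⁻¹ * walk f g (i.val + 1))⁻¹ ∈ B
    rw [walk_odd hi]
    exact (hfg.bt _ (mem_univ _)).2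
  · intro k l hkl
    simp only at hkl
    rw [htake _ (by omega), htake _ (by omega)] at hkl
    have hk := k.isLt
    have hl := l.isLt
    apply Fin.ext
    rcases Nat.lt_or_ge (k.val + 1) (Nat.card G) with c1 | c1
    · rcases Nat.lt_or_ge (l.val + 1) (Nat.card G) with c2 | c2
      · have := h2 _ c1 _ c2 hkl
        omega
      · have e : l.val + 1 = Nat.card G := by omega
        rw [e, h1] at hkl
        have := h2 _ c1 0 (by omega) hkl
        omega
    · have e : k.val + 1 = Nat.card G := by omega
      rcases Nat.lt_or_ge (l.val + 1) (Nat.card G) with c2 | c2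
      · rw [e, h1] at hkl
        have := h2 0 (by omega) _ c2 hkl
        omega
      · omega
  · have := htake _ le_rfl
    rw [List.take_of_length_le (by simp)] at this
    rw [this, h1]

end Run7.h85.HC
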