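import Pool.Agent.Run7.h85.HC.Glue

/-!
# Alternating cycles in Cayley graphs: adding a commuting generator
-/

set_option autoImplicit false

namespace Run7.h85.HC

open Finset

attribute [local instance] Classical.propDecidable

set_option linter.unusedSectionVars false

universe u

variable {G : Type u} [Group G] [Fintype G]

/-- the elements of a subgroup -/
noncomputable def fin (H : Subgroup G) : Finset G := univ.filter (· ∈ H)

theorem mem_fin {H : Subgroup G} {x : G} : x ∈ fin H ↔ x ∈ H := by simp [fin]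

/-- an alternating cycle on a union `U` of left cosets of `H`, glued by edges of type `c` -/
structure Good (P Q : Set G) (H H' : Subgroup G) (α : G → G) (c : G) (U : Finset G)
    (f g : G → G) : Prop where
  alt : AltOn P Q U f g
  sub : ∀ x ∈ H, x ∈ U
  inH : ∀ x ∈ U, x ∈ H'
  clo : ∀ x ∈ U, ∀ h ∈ H, x * h ∈ U
  typ : ∀ x ∈ U, (∃ h ∈ H, x⁻¹ * f x = h⁻¹ * α h) ∨ x⁻¹ * f x = c ∨ x⁻¹ * f x = c⁻¹
  lnk : ∀ x ∈ U, x⁻¹ * f x ∉ H →
    (U.filter (fun z => x⁻¹ * z ∈ H ∧ (f x)⁻¹ * f z ∈ H)).card ≤ 2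

section
variable {P Q : Set G} {H H' : Subgroup G} {α β : G → G} {c : G}

/-- there is an unused edge at a suitable place -/
theorem unused (hcH : c ∉ H) (hα : AltOn P Q (fin H) α β)
    (h3 : c * c = 1 ∨ ∃ a b : G, a ∈ H ∧ b ∈ H ∧ a ≠ 1 ∧ b ≠ 1 ∧ a ≠ b ∧ a * c = c * a ∧ b * c = c * b)
    {U : Finset G} {f g : G → G} (hU : Good P Q H H' α c U f g) {x : G} (hx : x ∈ U)
    (hxc : x * c ∉ U) :
    ∃ y ∈ U, y * c ∉ U ∧ ∃ h ∈ H, y⁻¹ * f y = h⁻¹ * α h := by
  have hαH : ∀ h ∈ H, h⁻¹ * α h ∈ H := fun h hh =>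
    H.mul_mem (H.inv_mem hh) (mem_fin.1 (hα.am h (mem_fin.2 hh)))
  -- a used vertex `y` has `f y = y c⁻¹`
  have key : ∀ y ∈ U, y * c ∉ U → (∃ h ∈ H, y⁻¹ * f y = h⁻¹ * α h) ∨ f y = y * c⁻¹ := by
    intro y hy hyc
    rcases hU.typ y hy with h | h | h
    · exact Or.inl h
    · exfalso
      apply hyc
      have : f y = y * c := by rw [← h]; group
      rw [← this]
      exact hU.alt.am y hy
    · right
      rw [← h]; group
  rcases key x hx hxc with h | h
  · exact ⟨x, hx, hxc, h⟩
  rcases h3 with h3 | ⟨a, b, ha, hb, ha1, hb1, hab, hac, hbc⟩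
  · exfalso
    have h4 : c⁻¹ = c := inv_eq_of_mul_eq_one_left h3
    rw [h4] at h
    apply hxc
    rw [← h]
    exact hU.alt.am x hx
  · have out : ∀ t ∈ H, t * c = c * t → x * t * c ∉ U := by
      intro t ht htc h5
      apply hxc
      have := hU.clo _ h5 t⁻¹ (H.inv_mem ht)
      have e : x * t * c * t⁻¹ = x * c := by
        rw [mul_assoc x t c, htc]; group
      rwa [e] at this
    rcases key (x * a) (hU.clo x hx a ha) (out a ha hac) with h5 | h5
    · exact ⟨x * a, hU.clo x hx a ha, out a ha hac, h5⟩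
    rcases key (x * b) (hU.clo x hx b hb) (out b hb hbc) with h6 | h6
    · exact ⟨x * b, hU.clo x hx b hb, out b hb hbc, h6⟩
    exfalso
    have h7 : x⁻¹ * f x ∉ H := by
      rw [h]
      intro h8
      apply hcH
      have := H.inv_mem h8
      have e : (x⁻¹ * (x * c⁻¹))⁻¹ = c := by group
      rwa [e] at this
    have h8 := hU.lnk x hx h7
    have h9 : ({x, x * a, x * b} : Finset G) ⊆
        U.filter (fun z => x⁻¹ * z ∈ H ∧ (f x)⁻¹ * f z ∈ H) := by
      intro z hz
      simp only [mem_insert, mem_singleton] at hz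
      rw [mem_filter]
      rcases hz with rfl | rfl | rfl
      · exact ⟨hx, by simp, by simp⟩
      · refine ⟨hU.clo x hx a ha, by simpa using ha, ?_⟩
        rw [h, h5]
        have e : (x * c⁻¹)⁻¹ * (x * a * c⁻¹) = a := by
          have : (x * c⁻¹)⁻¹ * (x * a * c⁻¹) = c * a * c⁻¹ := by group
          rw [this, ← hac]; group
        rw [e]; exact ha
      · refine ⟨hU.clo x hx b hb, by simpa using hb, ?_⟩
        rw [h, h6]
        have e : (x * c⁻¹)⁻¹ * (x * b * c⁻¹) = b := by
          have : (x * c⁻¹)⁻¹ * (x * b * c⁻¹) = c * b * c⁻¹ := by group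
          rw [this, ← hbc]; group
        rw [e]; exact hb
    have h10 : ({x, x * a, x * b} : Finset G).card = 3 := by
      apply card_eq_three.2
      refine ⟨x, x * a, x * b, ?_, ?_, ?_, rfl⟩
      · intro he; exact ha1 (by simpa using he)
      · intro he; exact hb1 (by simpa using he)
      · intro he; exact hab (mul_left_cancel he)
    have := card_le_card h9
    omega

/-- one more coset -/
theorem extend (hP : (1 : G) ∉ P) (hQ : (1 : G) ∉ Q) (hPi : ∀ p ∈ P, p⁻¹ ∈ P) (hc : c ∈ P)
    (hcH : c ∉ H) (hcH' : c ∈ H') (hHH' : H ≤ H') (hcomm : ∀ p ∈ P, p * c = c * p)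
    (hα : AltOn P Q (fin H) α β)
    (h3 : c * c = 1 ∨ ∃ a b : G, a ∈ H ∧ b ∈ H ∧ a ≠ 1 ∧ b ≠ 1 ∧ a ≠ b ∧ a * c = c * a ∧ b * c = c * b)
    {U : Finset G} {f g : G → G} (hU : Good P Q H H' α c U f g) {x : G} (hx : x ∈ U)
    (hxc : x * c ∉ U) :
    ∃ (U' : Finset G) (f' g' : G → G), Good P Q H H' α c U' f' g' ∧ U.card < U'.card := by
  obtain ⟨y, hy, hyc, h, hh, ht⟩ := unused hcH hα h3 hU hx hxc
  have hαm : ∀ k ∈ H, α k ∈ H := fun k hk => mem_fin.1 (hα.am k (mem_fin.2 hk))
  set t : G := h⁻¹ * α h with htdef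
  have htH : t ∈ H := H.mul_mem (H.inv_mem hh) (hαm h hh)
  have htP : t ∈ P := hα.at_ h (mem_fin.2 hh)
  have htc : t * c = c * t := hcomm t htP
  have hfy : f y = y * t := by rw [← ht]; group
  -- the new coset
  set g0 : G := y * c * h⁻¹ with hg0
  have hD := hα.translate g0
  set D : Finset G := (fin H).image (g0 * ·) with hDdef
  have memD : ∀ z, z ∈ D ↔ (y * c)⁻¹ * z ∈ H := by
    intro z
    rw [hDdef, mem_image]
    constructor
    · rintro ⟨k, hk, rfl⟩
      rw [mem_fin] at hk
      have e : (y * c)⁻¹ * (g0 * k) = h⁻¹ * k := by rw [hg0]; group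
      rw [e]
      exact H.mul_mem (H.inv_mem hh) hk
    · intro hz
      refine ⟨g0⁻¹ * z, ?_, by group⟩
      rw [mem_fin]
      have e : g0⁻¹ * z = h * ((y * c)⁻¹ * z) := by rw [hg0]; group
      rw [e]
      exact H.mul_mem hh hz
  have hdis : Disjoint U D := by
    rw [Finset.disjoint_left]
    intro z hzU hzD
    rw [memD] at hzD
    apply hyc
    have := hU.clo z hzU _ (H.inv_mem hzD)
    have e : z * ((y * c)⁻¹ * z)⁻¹ = y * c := by group
    rwa [e] at this
  have hycD : y * c ∈ D := by rw [memD]; simp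
  have eα : (fun z => g0 * α (g0⁻¹ * z)) (y * c) = y * t * c := by
    show g0 * α (g0⁻¹ * (y * c)) = _
    have e1 : g0⁻¹ * (y * c) = h := by rw [hg0]; group
    rw [e1]
    have e2 : α h = h * t := by rw [htdef]; group
    rw [e2, hg0]
    have e3 : y * c * h⁻¹ * (h * t) = y * (c * t) := by group
    rw [e3, ← htc]; group
  have hcne : c ≠ 1 := fun he => hP (he ▸ hc)
  obtain ⟨f', g', hA, k1, k2, k3, k4, k5, k6⟩ := glue hP hQ hU.alt hD hdis (x := y) (y := y * t)
    (x' := y * c) (y' := y * t * c) hy hfy hycD eα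
    (by simpa using hc) (by
      have e : (y * c)⁻¹ * y = c⁻¹ := by group
      rw [e]; exact hPi c hc)
    (by
      have e : (y * t)⁻¹ * (y * t * c) = c := by group
      rw [e]; exact hc)
    (by
      have e : (y * t * c)⁻¹ * (y * t) = c⁻¹ := by group
      rw [e]; exact hPi c hc)
  have hytU : y * t ∈ U := hU.clo y hy t htH
  have hytcD : y * t * c ∈ D := by
    rw [memD]
    have e : (y * c)⁻¹ * (y * t * c) = c⁻¹ * (t * c) := by group
    rw [e, htc]
    simpa using htH
  have cloD : ∀ z ∈ D, ∀ k ∈ H, z * k ∈ D := by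
    intro z hz k hk
    rw [memD] at hz ⊢
    have e : (y * c)⁻¹ * (z * k) = (y * c)⁻¹ * z * k := by group
    rw [e]; exact H.mul_mem hz hk
  have notboth : ∀ z, z ∈ U → z ∈ D → False := fun z h1 h2 => (Finset.disjoint_left.1 hdis h1) h2
  -- `f'` on the two parts
  have fD : ∀ z ∈ D, z ≠ y * c → z ≠ y * t * c → f' z ∈ D ∧ z⁻¹ * f' z ∈ H := by
    intro z hz h1 h2
    rw [k6 z hz h1 h2]
    have hk : g0⁻¹ * z ∈ H := by
      rw [hDdef, mem_image] at hz
      obtain ⟨k, hk, rfl⟩ := hz
      rw [mem_fin] at hk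
      simpa using hk
    refine ⟨mem_image.2 ⟨α (g0⁻¹ * z), mem_fin.2 (hαm _ hk), rfl⟩, ?_⟩
    have e : z⁻¹ * (g0 * α (g0⁻¹ * z)) = (g0⁻¹ * z)⁻¹ * α (g0⁻¹ * z) := by group
    rw [e]
    exact H.mul_mem (H.inv_mem hk) (hαm _ hk)
  refine ⟨U ∪ D, f', g', ⟨hA, ?_, ?_, ?_, ?_, ?_⟩, ?_⟩
  · intro z hz; exact mem_union_left _ (hU.sub z hz)
  · intro z hz
    rcases mem_union.1 hz with hz | hz
    · exact hU.inH z hz
    · rw [memD] at hz
      have : z = y * c * ((y * c)⁻¹ * z) := by group
      rw [this]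
      exact H'.mul_mem (H'.mul_mem (hU.inH y hy) hcH') (hHH' hz)
  · intro z hz k hk
    rcases mem_union.1 hz with hz | hz
    · exact mem_union_left _ (hU.clo z hz k hk)
    · exact mem_union_right _ (cloD z hz k hk)
  · intro z hz
    rcases mem_union.1 hz with hz | hz
    · by_cases h1 : z = y
      · right; left; rw [h1, k1]; group
      by_cases h2 : z = y * t
      · right; left; rw [h2, k3]; group
      rw [k5 z hz h1 h2]; exact hU.typ z hz
    · by_cases h1 : z = y * c
      · right; right; rw [h1, k2]; group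
      by_cases h2 : z = y * t * c
      · right; right; rw [h2, k4]; group
      left
      rw [k6 z hz h1 h2]
      have hk : g0⁻¹ * z ∈ H := by
        rw [hDdef, mem_image] at hz
        obtain ⟨k, hk, rfl⟩ := hz
        rw [mem_fin] at hk
        simpa using hk
      exact ⟨g0⁻¹ * z, hk, by group⟩
  · intro z hz hzn
    have two : ∀ p q : G, ((U ∪ D).filter (fun w => z⁻¹ * w ∈ H ∧ (f' z)⁻¹ * f' w ∈ H)) ⊆ {p, q} →
        ((U ∪ D).filter (fun w => z⁻¹ * w ∈ H ∧ (f' z)⁻¹ * f' w ∈ H)).card ≤ 2 := by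
      intro p q hpq
      exact (card_le_card hpq).trans (card_le_two)
    have sameU : ∀ w ∈ U ∪ D, z ∈ U → z⁻¹ * w ∈ H → w ∈ U := by
      intro w _ hz hw
      have := hU.clo z hz _ hw
      simpa using this
    have sameD : ∀ w ∈ U ∪ D, z ∈ D → z⁻¹ * w ∈ H → w ∈ D := by
      intro w _ hz hw
      have := cloD z hz _ hw
      simpa using this
    have imU : ∀ w, f' z ∈ U → (f' z)⁻¹ * f' w ∈ H → f' w ∈ U := by
      intro w h1 h2
      have := hU.clo _ h1 _ h2
      simpa using this
    have imD : ∀ w, f' z ∈ D → (f' z)⁻¹ * f' w ∈ H → f' w ∈ D := by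
      intro w h1 h2
      have := cloD _ h1 _ h2
      simpa using this
    have f'U : ∀ w ∈ U, w ≠ y → w ≠ y * t → f' w ∈ U := by
      intro w hw h1 h2
      rw [k5 w hw h1 h2]; exact hU.alt.am w hw
    rcases mem_union.1 hz with hz' | hz'
    · by_cases h12 : z = y ∨ z = y * t
      · apply two y (y * t)
        intro w hw
        rw [mem_filter] at hw
        obtain ⟨hw1, hw2, hw3⟩ := hw
        have hwU := sameU w hw1 hz' hw2
        have hfz : f' z ∈ D := by
          rcases h12 with rfl | rfl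
          · rw [k1]; exact hycD
          · rw [k3]; exact hytcD
        have hfw := imD w hfz hw3
        simp only [mem_insert, mem_singleton]
        by_contra hcon
        push Not at hcon
        exact notboth _ (f'U w hwU hcon.1 hcon.2) hfw
      · push Not at h12
        have e0 := k5 z hz' h12.1 h12.2
        rw [e0] at hzn
        have hfz : f' z ∈ U := f'U z hz' h12.1 h12.2
        refine le_trans (card_le_card ?_) (hU.lnk z hz' hzn)
        intro w hw
        rw [mem_filter] at hw ⊢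
        obtain ⟨hw1, hw2, hw3⟩ := hw
        have hwU := sameU w hw1 hz' hw2
        have hfw := imU w hfz hw3
        have n1 : w ≠ y := by
          rintro rfl
          rw [k1] at hfw
          exact notboth _ hfw hycD
        have n2 : w ≠ y * t := by
          rintro rfl
          rw [k3] at hfw
          exact notboth _ hfw hytcD
        refine ⟨hwU, hw2, ?_⟩
        rw [e0, k5 w hwU n1 n2] at hw3
        exact hw3
    · have h12 : z = y * c ∨ z = y * t * c := by
        by_contra hcon
        push Not at hcon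
        exact hzn (fD z hz' hcon.1 hcon.2).2
      apply two (y * c) (y * t * c)
      intro w hw
      rw [mem_filter] at hw
      obtain ⟨hw1, hw2, hw3⟩ := hw
      have hwD := sameD w hw1 hz' hw2
      have hfz : f' z ∈ U := by
        rcases h12 with rfl | rfl
        · rw [k2]; exact hy
        · rw [k4]; exact hytU
      have hfw := imU w hfz hw3
      simp only [mem_insert, mem_singleton]
      by_contra hcon
      push Not at hcon
      exact notboth _ hfw (fD w hwD hcon.1 hcon.2).1
  · rw [card_union_of_disjoint hdis]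
    have : 0 < D.card := card_pos.2 ⟨_, hycD⟩
    omega

/-- **adding a commuting generator** -/
theorem step (hP : (1 : G) ∉ P) (hQ : (1 : G) ∉ Q) (hPi : ∀ p ∈ P, p⁻¹ ∈ P) (hc : c ∈ P)
    (hcH : c ∉ H) (hcomm : ∀ p ∈ P, p * c = c * p)
    (hα : AltOn P Q (fin H) α β)
    (h3 : c * c = 1 ∨ ∃ a b : G, a ∈ H ∧ b ∈ H ∧ a ≠ 1 ∧ b ≠ 1 ∧ a ≠ b ∧ a * c = c * a ∧
      b * c = c * b) :
    ∃ f g : G → G, AltOn P Q (fin (H ⊔ Subgroup.zpowers c)) f g := by
  set H' := H ⊔ Subgroup.zpowers c with hH'
  have hHH' : H ≤ H' := le_sup_left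
  have hcH' : c ∈ H' := (le_sup_right : Subgroup.zpowers c ≤ H') (Subgroup.mem_zpowers c)
  have main : ∀ (k : ℕ) (U : Finset G) (f g : G → G), Good P Q H H' α c U f g →
      Fintype.card G - U.card ≤ k →
      ∃ (U' : Finset G) (f' g' : G → G), Good P Q H H' α c U' f' g' ∧ ∀ x ∈ U', x * c ∈ U' := by
    intro k
    induction k with
    | zero =>
      intro U f g hU hk
      by_cases h : ∀ x ∈ U, x * c ∈ U
      · exact ⟨U, f, g, hU, h⟩
      · push Not at h
        obtain ⟨x, hx, hxc⟩ := h
        obtain ⟨U', f', g', _, h2⟩ := extend hP hQ hPi hc hcH hcH' hHH' hcomm hα h3 hU hx hxc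
        have : U'.card ≤ Fintype.card G := card_le_univ _
        omega
    | succ k ih =>
      intro U f g hU hk
      by_cases h : ∀ x ∈ U, x * c ∈ U
      · exact ⟨U, f, g, hU, h⟩
      · push Not at h
        obtain ⟨x, hx, hxc⟩ := h
        obtain ⟨U', f', g', h1, h2⟩ := extend hP hQ hPi hc hcH hcH' hHH' hcomm hα h3 hU hx hxc
        exact ih U' f' g' h1 (by omega)
  have base : Good P Q H H' α c (fin H) α β := by
    refine ⟨hα, fun x hx => mem_fin.2 hx, fun x hx => hHH' (mem_fin.1 hx), ?_, ?_, ?_⟩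
    · intro x hx h hh
      exact mem_fin.2 (H.mul_mem (mem_fin.1 hx) hh)
    · intro x hx
      exact Or.inl ⟨x, mem_fin.1 hx, rfl⟩
    · intro x hx hn
      exfalso
      exact hn (H.mul_mem (H.inv_mem (mem_fin.1 hx)) (mem_fin.1 (hα.am x hx)))
  obtain ⟨U, f, g, hU, hclo⟩ := main _ (fin H) α β base le_rfl
  have hall : ∀ z ∈ H', ∀ y ∈ U, y * z ∈ U := by
    intro z hz
    rw [hH', Subgroup.sup_eq_closure] at hz
    induction hz using Subgroup.closure_induction with
    | mem x hx =>
      intro y hy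
      rcases hx with hx | hx
      · exact hU.clo y hy x hx
      · obtain ⟨n, rfl⟩ := Subgroup.mem_zpowers_iff.1 hx
        have h1 : ∀ n : ℕ, ∀ y ∈ U, y * c ^ n ∈ U := by
          intro n
          induction n with
          | zero => intro y hy; simpa using hy
          | succ n ih =>
            intro y hy
            rw [pow_succ, ← mul_assoc]
            exact hclo _ (ih y hy)
        obtain ⟨m, hm⟩ : ∃ m : ℕ, c ^ n = c ^ m := by
          have : c ^ n ∈ Subgroup.zpowers c := ⟨n, rfl⟩
          rw [← mem_powers_iff_mem_zpowers] at this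
          obtain ⟨m, hm⟩ := this
          exact ⟨m, hm.symm⟩
        rw [hm]
        exact h1 m y hy
    | one => intro y hy; simpa using hy
    | mul a b _ _ iha ihb =>
      intro y hy
      rw [← mul_assoc]
      exact ihb _ (iha y hy)
    | inv a _ iha =>
      intro y hy
      have h1 : U.image (· * a) = U := by
        apply eq_of_subset_of_card_le
        · intro z hz
          obtain ⟨w, hw, rfl⟩ := mem_image.1 hz
          exact iha w hw
        · rw [card_image_of_injective _ (mul_left_injective a)]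
      rw [← h1] at hy
      obtain ⟨w, hw, rfl⟩ := mem_image.1 hy
      simpa using hw
  have heq : U = fin H' := by
    ext z
    rw [mem_fin]
    refine ⟨hU.inH z, fun hz => ?_⟩
    have := hall z hz 1 (hU.sub 1 H.one_mem)
    simpa using this
  rw [← heq]
  exact ⟨f, g, hU.alt⟩

end

end Run7.h85.HC
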